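import Pool.Agent.Helper86.TC8.Stmts
import Pool.Agent.Helper86.TC8.Base

/-!
TC8: sides in distinct segments are independent.
-/

set_option autoImplicit false

namespace Pool.Agent.Helper93.TC8

open Pool.Agent.Helper86.TC8
open Finset
open scoped Classical

theorem st_CYL : ST_PR → ST_CAN → ST_CYL := by
  intro hPR hCAN V _ C R D0 D1 H x F hF hnd
  obtain ⟨-, -, -, hcyl, -⟩ := hPR (Idx V)
  set g : List L × Bool → Idx V × Bool := fun e =>
    (((none : Option Bool), (rep C (act C.G e.1 x)).1), e.2 ^^ (rep C (act C.G e.1 x)).2) with hg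
  have hnd' : ((F.map g).map Prod.fst).Nodup := by
    rw [List.map_map, List.Nodup, List.pairwise_map]
    rw [List.Nodup, List.pairwise_map] at hnd
    refine hnd.imp_of_mem ?_
    intro e e' he he' hne heq
    apply hne
    simp only [hg, Function.comp, Prod.mk.injEq, true_and] at heq
    exact hCAN V C R D0 D1 H x e.1 e'.1 (hF e he).1 (hF e' he').1 (hF e he).2 (hF e' he').2 heq
  have h1 := hcyl (F.map g) hnd'
  rw [List.length_map] at h1
  rw [← h1]
  apply le_of_eq
  apply congrArg
  funext ω
  apply propext
  simp only [List.mem_map, forall_exists_index, and_imp, forall_apply_eq_imp_iff₂]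
  refine forall_congr' fun e => forall_congr' fun _ => ?_
  simp only [hg, sd, ph]
  cases ω ((none : Option Bool), (rep C (act C.G e.1 x)).1) <;>
    cases (rep C (act C.G e.1 x)).2 <;> cases e.2 <;> simp

end Pool.Agent.Helper93.TC8
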