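import Pool.Agent.Helper86.TC8.Stmts
import Pool.Agent.Helper86.TC8.Base

/-!
TC8: few vertices touch a given index.
-/

set_option autoImplicit false

namespace Pool.Agent.Helper93.TC8

open Pool.Agent.Helper86.TC8
open Finset
open scoped Classical

variable {V : Type}

theorem card_pre_le {V : Type} [Fintype V] (g : V → V) (hg : Function.Injective g)
    (p : V → Prop) : (univ.filter fun x => p (g x)).card ≤ (univ.filter p).card := by
  refine card_le_card_of_injOn g ?_ (fun a _ b _ h => hg h)
  intro x hx
  simpa using hx

theorem st_TCH : ST_SEG → ST_TCH := by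
  intro hS V _ C R D0 D1 H i
  have hbw : Function.Injective C.G.bw := act1_inj C.G .b
  have hnu : Function.Injective C.G.nu := act1_inj C.G .n
  obtain ⟨o, r⟩ := i
  cases o with
  | none =>
    have hA := hS V C R D0 D1 H r
    have hB := (card_pre_le C.G.bw hbw (fun y => (rep C y).1 = r)).trans hA
    have hC := (card_pre_le (fun x => C.G.bw (C.G.nu x)) (hbw.comp hnu)
      (fun y => (rep C y).1 = r)).trans hA
    have hsub : (univ.filter fun x => Tch C (none, r) x) ⊆
        (univ.filter fun y => (rep C y).1 = r) ∪
        ((univ.filter fun y => (rep C (C.G.bw y)).1 = r) ∪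
        (univ.filter fun y => (rep C (C.G.bw (C.G.nu y))).1 = r)) := by
      intro x hx
      simp only [mem_filter, mem_univ, true_and, Tch, rdV, mem_insert, mem_singleton,
        Prod.mk.injEq, mem_union] at hx ⊢
      rcases hx with (h | h | h) | ⟨t, h, _⟩ | ⟨t, h, _⟩
      · exact Or.inl h.symm
      · exact Or.inr (Or.inl h.symm)
      · exact Or.inr (Or.inr h.symm)
      · exact absurd h (by simp)
      · exact absurd h (by simp)
    refine (card_le_card hsub).trans ((card_union_le _ _).trans ?_)
    have h2 := card_union_le (univ.filter fun y => (rep C (C.G.bw y)).1 = r)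
      (univ.filter fun y => (rep C (C.G.bw (C.G.nu y))).1 = r)
    omega
  | some t =>
    have hsub : (univ.filter fun x => Tch C (some t, r) x) ⊆ {r, C.G.nu r} := by
      intro x hx
      simp only [mem_filter, mem_univ, true_and, Tch, rdV, mem_insert, mem_singleton,
        Prod.mk.injEq] at hx ⊢
      rcases hx with (h | h | h) | ⟨t, _, h⟩ | ⟨t, _, h⟩
      · exact absurd h.1 (by simp)
      · exact absurd h.1 (by simp)
      · exact absurd h.1 (by simp)
      · exact Or.inl h.symm
      · right
        rw [h, C.G.nu_nu]
    have h2 := card_le_two (a := r) (b := C.G.nu r)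
    exact (card_le_card hsub).trans (h2.trans (by omega))

end Pool.Agent.Helper93.TC8
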