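import Pool.Agent.Helper86.TC8.Stmts
import Pool.Agent.Helper86.TC8.Base

/-!
TC8: same segment, same canonical word.
-/

set_option autoImplicit false

namespace Pool.Agent.Helper93.TC8

open Pool.Agent.Helper86.TC8
open Finset
open scoped Classical

variable {V : Type}

/-- the reduced word after one link -/
def lw (β : Bool) (W : List L) : List L := if β then rc .n W else rc .b (rc .n (rc .f W))

theorem act_lw (G : CG V) (β : Bool) (W : List L) (x : V) :
    act G (lw β W) x = link G β (act G W x) := by
  cases β
  · simp only [lw, link, Tm, Bool.false_eq_true, if_false, act_rc, act_cons, act1]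
  · simp only [lw, link, if_true, act_rc, act_cons, act1]

theorem red_lw (β : Bool) {W : List L} (h : Red W) : Red (lw β W) := by
  cases β
  · exact red_rc (red_rc (red_rc h))
  · exact red_rc h

theorem length_lw_le (β : Bool) (W : List L) : (lw β W).length ≤ W.length + 3 := by
  cases β
  · have h1 := length_rc_le .b (rc .n (rc .f W))
    have h2 := length_rc_le .n (rc .f W)
    have h3 := length_rc_le .f W
    simp only [lw, Bool.false_eq_true, if_false]
    omega
  · have h3 := length_rc_le .n W
    simp only [lw, if_true]
    omega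

theorem can_rc_n {W : List L} : can (rc .n W) = can W := by
  cases W with
  | nil => rfl
  | cons c w => cases c <;> simp [rc, L.inv, can]

theorem can_lw (β : Bool) {W : List L} (h : Red W) : can (lw β W) = can W := by
  cases β
  swap
  · exact can_rc_n
  · simp only [lw, Bool.false_eq_true, if_false]
    match W, h with
    | [], _ => simp [rc, L.inv, can]
    | [.b], _ => simp [rc, L.inv, can]
    | [.b, .n], _ => simp [rc, L.inv, can]
    | .b :: .n :: .f :: w, _ => simp [rc, L.inv, can]
    | .b :: .n :: .b :: w, _ => simp [rc, L.inv, can]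
    | .b :: .n :: .n :: w, h => exact absurd rfl h.2.1
    | .b :: .b :: w, _ => simp [rc, L.inv, can]
    | .b :: .f :: w, h => exact absurd rfl h.1
    | .n :: w, _ => simp [rc, L.inv, can]
    | .f :: w, _ => simp [rc, L.inv, can]

theorem scan_word (G : CG V) (Z : V → Bool) (x : V) : ∀ (k : ℕ) (β : Bool) (W : List L), Red W →
    ∃ W1 : List L, Red W1 ∧ can W1 = can W ∧ W1.length ≤ W.length + 3 * k ∧
      (scan G Z k β (act G W x)).1 = act G W1 x := by
  intro k
  induction k with
  | zero => intro β W hW; exact ⟨W, hW, rfl, by simp, rfl⟩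
  | succ k ih =>
    intro β W hW
    by_cases hok : ok G Z β (act G W x) = true
    · obtain ⟨W1, h1, h2, h3, h4⟩ := ih (!β) (lw β W) (red_lw β hW)
      refine ⟨W1, h1, h2.trans (can_lw β hW), ?_, ?_⟩
      · have := length_lw_le β W
        omega
      · rw [act_lw] at h4
        simp only [scan, hok, if_true]
        exact h4
    · refine ⟨W, hW, rfl, by simp, ?_⟩
      simp only [scan, hok]
      simp

theorem rep_word (C : Ctx V) (x : V) {W : List L} (hW : Red W) :
    ∃ W1 : List L, Red W1 ∧ can W1 = can W ∧ W1.length ≤ W.length + 3 * C.K ∧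
      (rep C (act C.G W x)).1 = act C.G W1 x := by
  unfold rep
  split
  · exact scan_word C.G C.Z x C.K true W hW
  · exact scan_word C.G C.Z x C.K false W hW

theorem st_CAN : ST_CAN := by
  intro V C R D0 D1 H x W W' hW hW' hl hl' he
  obtain ⟨U, h1, h2, h3, h4⟩ := rep_word C x hW
  obtain ⟨U', h1', h2', h3', h4'⟩ := rep_word C x hW'
  have : U = U' := by
    refine H.free.inj h1 h1' ?_ (x := x) ?_
    · omega
    · rw [← h4, ← h4', he]
  rw [← h2, ← h2', this]

end Pool.Agent.Helper93.TC8
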