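import Pool.Agent.Helper86.TC8.Stmts
import Pool.Agent.Helper86.TC8.Base

/-!
TC8: segments are short.
-/

set_option autoImplicit false

namespace Pool.Agent.Helper93.TC8

open Pool.Agent.Helper86.TC8
open Finset
open scoped Classical

variable {V : Type}

theorem link_link (G : CG V) (β : Bool) (x : V) : link G β (link G β x) = x := by
  cases β
  · simp [link, Tm, G.fw_bw, G.nu_nu, G.bw_fw]
  · simp [link, G.nu_nu]

/-- alternating chain of `k` links whose last link has type `β` -/
def ch (G : CG V) : ℕ → Bool → V → V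
  | 0, _, v => v
  | k + 1, β, v => link G β (ch G k (!β) v)

theorem scan_ch (G : CG V) (Z : V → Bool) : ∀ (k : ℕ) (β : Bool) (x : V),
    ∃ j ≤ k, ch G j β (scan G Z k β x).1 = x := by
  intro k
  induction k with
  | zero => intro β x; exact ⟨0, le_rfl, rfl⟩
  | succ k ih =>
    intro β x
    by_cases hok : ok G Z β x = true
    · obtain ⟨j, hj, h⟩ := ih (!β) (link G β x)
      refine ⟨j + 1, by omega, ?_⟩
      simp only [scan, hok, if_true, ch, h, link_link]
    · refine ⟨0, by omega, ?_⟩
      simp only [scan, hok, ch]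
      simp

theorem rep_ch (C : Ctx V) (x : V) : ∃ j ≤ C.K, ∃ β, ch C.G j β (rep C x).1 = x := by
  unfold rep
  split
  · obtain ⟨j, h1, h2⟩ := scan_ch C.G C.Z C.K true x
    exact ⟨j, h1, _, h2⟩
  · obtain ⟨j, h1, h2⟩ := scan_ch C.G C.Z C.K false x
    exact ⟨j, h1, _, h2⟩

theorem st_SEG : ST_SEG := by
  intro V _ C R D0 D1 H v
  have hsub : (univ.filter fun y => (rep C y).1 = v) ⊆
      (range (C.K + 1) ×ˢ (univ : Finset Bool)).image fun q => ch C.G q.1 q.2 v := by
    intro y hy
    simp only [mem_filter, mem_univ, true_and] at hy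
    obtain ⟨j, h1, β, h2⟩ := rep_ch C y
    rw [hy] at h2
    rw [mem_image]
    exact ⟨(j, β), by simp; omega, h2⟩
  calc (univ.filter fun y => (rep C y).1 = v).card
      ≤ ((range (C.K + 1) ×ˢ (univ : Finset Bool)).image fun q => ch C.G q.1 q.2 v).card :=
        card_le_card hsub
    _ ≤ (range (C.K + 1) ×ˢ (univ : Finset Bool)).card := card_image_le
    _ = 2 * (C.K + 1) := by rw [card_product, card_range]; simp; ring

end Pool.Agent.Helper93.TC8
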